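import Pool.Agent.Q103.OP.Defs
import Pool.Agent.H135R2.VS.Der

/-!
# OP-DRV: derivations
-/

set_option autoImplicit false

namespace Pool.Agent.Q129.OP

open Pool.Agent.Q103.OP Polynomial

universe u

theorem t_DRV : S_DRV.{u} := by
  intro Ω _ _ κ _ a ha
  have hchar : CharZero κ := ⟨fun m n h => Nat.cast_injective (R := Ω) (by
    have h1 := congrArg (algebraMap κ Ω) h
    rwa [map_natCast, map_natCast] at h1)⟩
  have htr : Transcendental κ a := by
    intro hal
    apply ha
    have h1 : IsIntegral κ a := hal.isIntegral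
    have h2 := IsAlgClosed.degree_eq_one_of_irreducible κ (minpoly.irreducible h1)
    obtain ⟨c, hc⟩ := minpoly.mem_range_of_degree_eq_one κ a h2
    rw [← hc]
    exact c.2
  have hind : AlgebraicIndependent κ (fun _ : Unit => a) :=
    algebraicIndependent_unique_type_iff.2 htr
  obtain ⟨D, hD⟩ := Pool.Agent.H135R2.VS.exists_der hind (fun _ => 1)
  refine ⟨D.restrictScalars ℤ, fun c hc => ?_, ?_⟩
  · exact D.map_algebraMap (⟨c, hc⟩ : κ)
  · have h1 : (D.restrictScalars ℤ) a = 1 := hD ()
    rw [h1]
    exact one_ne_zero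

end Pool.Agent.Q129.OP
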