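import Pool.Agent.Q129.OP.Hev

/-!
# OP-ITER: iterates
-/

set_option autoImplicit false

namespace Pool.Agent.Q129.OP

open Pool.Agent.W277.UH Finset Polynomial
open Pool.Agent.Y706.CH (bK)
open Pool.Agent.Q103.OP

universe u

theorem t_ITER : S_ITER.{u} := by
  intro K _ _ d hd p q hpq m
  induction m with
  | zero =>
    refine ⟨X, 1, ⟨isCoprime_one_right, ?_⟩, ?_, ?_⟩
    · rw [natDegree_X, natDegree_one, pow_zero]
      rfl
    · intro Z
      rw [pow_zero, Function.iterate_zero, id]
      unfold bK hev
      ext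
      · simp [Finset.sum_range_succ, coeff_X]
      · simp [Finset.sum_range_succ, coeff_one]
    · intro Z
      rw [Finset.prod_range_zero, pow_zero]
      unfold Jv Wr hev
      simp
  | succ m ih =>
    obtain ⟨P, Q, hPQ, hF, hJ⟩ := ih
    refine ⟨hc (d ^ m) P p q, hc (d ^ m) Q p q, ?_, ?_, ?_⟩
    · rw [pow_succ]
      exact rat_comp hPQ hpq
    · intro Z
      obtain ⟨hpd, hqd⟩ := rat_deg hpq
      rw [Function.iterate_succ_apply, ← hF, pow_succ]
      unfold bK
      rw [hev_comp _ d _ p q hpd hqd, hev_comp _ d _ p q hpd hqd]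
    · intro Z
      rw [Finset.prod_range_succ', pow_succ,
        jv_comp (Nat.one_le_pow _ _ (by omega)) (by omega) hPQ hpq, hJ]
      simp only [Function.iterate_succ_apply, Function.iterate_zero, id]

end Pool.Agent.Q129.OP
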