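import Pool.Agent.Q103.OP.Defs

/-!
# OP-KAP: the field of the elements of infinitesimal height
-/

set_option autoImplicit false

namespace Pool.Agent.Q129.OP

open Pool.Agent.Q103.OP Polynomial Filter Finset

universe u

section

variable {A : ℕ → ℝ} {B : ℕ → ℕ} {Ω : ℕ → Type u} [∀ i, Field (Ω i)]
  (U : Ultrafilter ℕ) (S : ∀ i, HSys (Ω i) A B) (H : ℕ → ℝ)

/-- infinitesimal height -/
def Inf (x : ∀ i, Ω i) : Prop := ∀ ε : ℝ, 0 < ε → ∀ᶠ i in (U : Filter ℕ), (S i).h (x i) ≤ ε * H i

/-- bounded degree -/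
def Bd (x : ∀ i, Ω i) : Prop := ∃ D, ∀ i, (S i).dg (x i) ≤ D

variable {U S H}

theorem inf_congr {x y : ∀ i, Ω i} (hx : Inf U S H x) (h : ∀ᶠ i in (U : Filter ℕ), x i = y i) :
    Inf U S H y := by
  intro ε hε
  filter_upwards [hx ε hε, h] with i h1 h2
  rw [← h2]
  exact h1

theorem exists_rep {x : ∀ i, Ω i} (h : ∃ D, ∀ᶠ i in (U : Filter ℕ), (S i).dg (x i) ≤ D) :
    ∃ y : ∀ i, Ω i, Bd S y ∧ ∀ᶠ i in (U : Filter ℕ), x i = y i := by
  classical
  obtain ⟨D, hD⟩ := h
  refine ⟨fun i => if (S i).dg (x i) ≤ D then x i else 0, ⟨max D 1, fun i => ?_⟩, ?_⟩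
  · dsimp only
    split_ifs with h1
    · exact h1.trans (le_max_left _ _)
    · exact (S i).zero.1.trans (le_max_right _ _)
  · filter_upwards [hD] with i h1
    rw [if_pos h1]

theorem inf_comb (hA : ∀ D, 0 ≤ A D) (hH : ∀ i, 0 < H i) {x y z : ∀ i, Ω i} (hx : Inf U S H x)
    (hy : Inf U S H y) (D : ℕ)
    (hz : ∀ i, (S i).h (z i) ≤ A D * ((S i).h (x i) + (S i).h (y i))) : Inf U S H z := by
  intro ε hε
  have hA1 : 0 < 2 * (A D + 1) := by have := hA D; linarith
  filter_upwards [hx (ε / (2 * (A D + 1))) (by positivity),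
    hy (ε / (2 * (A D + 1))) (by positivity)] with i h1 h2
  have h3 : (S i).h (x i) + (S i).h (y i) ≤ ε / (A D + 1) * H i := by
    have h4 : ε / (2 * (A D + 1)) * H i + ε / (2 * (A D + 1)) * H i = ε / (A D + 1) * H i := by
      have : A D + 1 ≠ 0 := by have := hA D; linarith
      field_simp
      ring
    linarith
  calc (S i).h (z i) ≤ A D * ((S i).h (x i) + (S i).h (y i)) := hz i
    _ ≤ A D * (ε / (A D + 1) * H i) := mul_le_mul_of_nonneg_left h3 (hA D)
    _ = (A D / (A D + 1)) * (ε * H i) := by ring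
    _ ≤ 1 * (ε * H i) := by
        apply mul_le_mul_of_nonneg_right _ (mul_nonneg hε.le (hH i).le)
        have := hA D
        rw [div_le_one (by linarith)]
        linarith
    _ = ε * H i := one_mul _

end

theorem t_KAP : S_KAP.{u} := by
  intro A B hA Ω _ _ _ U Λ _ _ _ π hsurj hπ S H hH
  have heq : ∀ x y : ∀ i, Ω i, π x = π y ↔ ∀ᶠ i in (U : Filter ℕ), x i = y i := by
    intro x y
    rw [← sub_eq_zero, ← map_sub, hπ]
    constructor
    · intro h
      filter_upwards [h] with i hi
      exact sub_eq_zero.1 hi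
    · intro h
      filter_upwards [h] with i hi
      rw [Pi.sub_apply, hi, sub_self]
  have hbd : ∀ {x y : ∀ i, Ω i}, Bd S x → Bd S y → ∃ D, (∀ i, (S i).dg (x i) ≤ D) ∧
      ∀ i, (S i).dg (y i) ≤ D := by
    rintro x y ⟨D, h1⟩ ⟨D', h2⟩
    exact ⟨max D D', fun i => (h1 i).trans (le_max_left _ _),
      fun i => (h2 i).trans (le_max_right _ _)⟩
  have hzero : Inf U S H (fun i => (0 : Ω i)) := fun ε hε => Eventually.of_forall fun i => by
    rw [(S i).zero.2]
    exact mul_nonneg hε.le (hH i).le
  have hone : Inf U S H (fun i => (1 : Ω i)) := fun ε hε => Eventually.of_forall fun i => by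
    rw [(S i).one.2]
    exact mul_nonneg hε.le (hH i).le
  let κ : Subfield Λ :=
    { carrier := {y | ∃ x, π x = y ∧ Bd S x ∧ Inf U S H x}
      mul_mem' := by
        rintro _ _ ⟨x, rfl, hx1, hx2⟩ ⟨y, rfl, hy1, hy2⟩
        obtain ⟨D, h1, h2⟩ := hbd hx1 hy1
        refine ⟨x * y, map_mul _ _ _, ⟨B D, fun i => ((S i).mul D _ _ (h1 i) (h2 i)).1⟩, ?_⟩
        exact inf_comb hA hH hx2 hy2 D fun i => ((S i).mul D _ _ (h1 i) (h2 i)).2
      one_mem' := ⟨1, map_one _, ⟨1, fun i => (S i).one.1⟩, hone⟩
      add_mem' := by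
        rintro _ _ ⟨x, rfl, hx1, hx2⟩ ⟨y, rfl, hy1, hy2⟩
        obtain ⟨D, h1, h2⟩ := hbd hx1 hy1
        refine ⟨x + y, map_add _ _ _, ⟨B D, fun i => ((S i).add D _ _ (h1 i) (h2 i)).1⟩, ?_⟩
        exact inf_comb hA hH hx2 hy2 D fun i => ((S i).add D _ _ (h1 i) (h2 i)).2
      zero_mem' := ⟨0, map_zero _, ⟨1, fun i => (S i).zero.1⟩, hzero⟩
      neg_mem' := by
        rintro _ ⟨x, rfl, ⟨D, hx1⟩, hx2⟩
        refine ⟨-x, map_neg _ _, ⟨D, fun i => ?_⟩, fun ε hε => ?_⟩
        · rw [Pi.neg_apply, ((S i).neg _).1]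
          exact hx1 i
        · filter_upwards [hx2 ε hε] with i hi
          rw [Pi.neg_apply, ((S i).neg _).2]
          exact hi
      inv_mem' := by
        rintro _ ⟨x, rfl, ⟨D, hx1⟩, hx2⟩
        refine ⟨fun i => (x i)⁻¹, ?_, ⟨D, fun i => ?_⟩, fun ε hε => ?_⟩
        · by_cases h0 : π x = 0
          · rw [h0, inv_zero, hπ]
            have h1 := (hπ x).1 h0
            filter_upwards [h1] with i hi
            rw [hi, inv_zero]
          · apply eq_inv_of_mul_eq_one_left
            rw [← map_mul, ← map_one π, heq]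
            have h1 : ¬ ∀ᶠ i in (U : Filter ℕ), x i = 0 := fun h => h0 ((hπ x).2 h)
            rw [← Ultrafilter.eventually_not] at h1
            filter_upwards [h1] with i hi
            rw [Pi.mul_apply, Pi.one_apply, inv_mul_cancel₀ hi]
        · rw [((S i).inv _).1]
          exact hx1 i
        · filter_upwards [hx2 ε hε] with i hi
          rw [((S i).inv _).2]
          exact hi }
  have hmem : ∀ y : Λ, y ∈ κ ↔ ∃ x, π x = y ∧ Bd S x ∧ Inf U S H x := fun y => Iff.rfl
  refine ⟨κ, ?_, ?_, ?_⟩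
  · refine IsAlgClosed.of_exists_root κ fun p hp hirr => ?_
    have hn0 : p.natDegree ≠ 0 := hirr.natDegree_pos.ne'
    choose x hx1 hx2 hx3 using fun j => (hmem _).1 (p.coeff j).2
    choose D hD using hx2
    set n := p.natDegree with hn
    obtain ⟨E, hE⟩ : ∃ E, E = max (max n 1) (∑ j ∈ range n, D j) := ⟨_, rfl⟩
    have hEn : n ≤ E := by rw [hE]; exact (le_max_left _ _).trans (le_max_left _ _)
    have hE1 : 1 ≤ E := by rw [hE]; exact (le_max_right _ _).trans (le_max_left _ _)
    have hED : ∀ j ∈ range n, D j ≤ E := by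
      intro j hj
      rw [hE]
      exact (single_le_sum (f := D) (fun _ _ => Nat.zero_le _) hj).trans (le_max_right _ _)
    -- the polynomials
    let P : ∀ i, Polynomial (Ω i) := fun i => X ^ n + ∑ j ∈ range n, C (x j i) * X ^ j
    have hlt : ∀ i, (∑ j ∈ range n, C (x j i) * X ^ j : Polynomial (Ω i)).degree < (n : ℕ) := by
      intro i
      rw [Polynomial.degree_lt_iff_coeff_zero]
      intro m hm
      rw [finsetSum_coeff]
      refine sum_eq_zero fun j hj => ?_
      rw [coeff_C_mul_X_pow, if_neg]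
      rw [Finset.mem_range] at hj
      omega
    have hPm : ∀ i, (P i).Monic := fun i => monic_X_pow_add (hlt i)
    have hPd : ∀ i, (P i).natDegree = n := fun i => by
      have h1 : (P i).degree = n := by
        change (X ^ n + ∑ j ∈ range n, C (x j i) * X ^ j : Polynomial (Ω i)).degree = n
        rw [degree_add_eq_left_of_degree_lt, degree_X_pow]
        rw [degree_X_pow]
        exact hlt i
      exact natDegree_eq_of_degree_eq_some h1
    have hPc : ∀ i m, (P i).coeff m = if m < n then x m i else if m = n then 1 else 0 := by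
      intro i m
      change (X ^ n + ∑ j ∈ range n, C (x j i) * X ^ j : Polynomial (Ω i)).coeff m = _
      rw [coeff_add, coeff_X_pow, finsetSum_coeff]
      simp only [coeff_C_mul_X_pow]
      by_cases h1 : m < n
      · rw [if_pos h1, if_neg (by omega), zero_add, sum_eq_single m]
        · rw [if_pos rfl]
        · intro b _ hb
          rw [if_neg hb.symm]
        · intro h2
          exact absurd (Finset.mem_range.2 h1) h2
      · rw [if_neg h1]
        have h2 : ∑ b ∈ range n, (if m = b then x b i else 0) = 0 := by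
          refine sum_eq_zero fun b hb => ?_
          rw [if_neg]
          rw [Finset.mem_range] at hb
          omega
        rw [h2, add_zero]
    have hex : ∀ i, ∃ r : Ω i, (P i).eval r = 0 := by
      intro i
      obtain ⟨r, hr⟩ := IsAlgClosed.exists_root (P i) (by
        rw [Polynomial.degree_eq_natDegree (hPm i).ne_zero, hPd]
        exact_mod_cast hn0)
      exact ⟨r, hr⟩
    choose r hr using hex
    have hroot : ∀ i, (S i).dg (r i) ≤ B E ∧ (S i).h (r i) ≤
        A E * ∑ m ∈ range (E + 1), (S i).h ((P i).coeff m) := by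
      intro i
      refine (S i).root E (P i) (hPm i) (by rw [hPd]; exact hEn) (fun m => ?_) (r i) (hr i)
      rw [hPc]
      split_ifs with h1 h2
      · exact (hD m i).trans (hED m (Finset.mem_range.2 h1))
      · exact (S i).one.1.trans hE1
      · exact (S i).zero.1.trans hE1
    have hsum : ∀ i, ∑ m ∈ range (E + 1), (S i).h ((P i).coeff m) = ∑ m ∈ range n, (S i).h (x m i) := by
      intro i
      rw [← sum_subset (s₁ := range n)]
      · refine sum_congr rfl fun m hm => ?_
        rw [hPc, if_pos (Finset.mem_range.1 hm)]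
      · intro m hm
        rw [Finset.mem_range] at hm ⊢
        omega
      · intro m _ hm
        rw [hPc, if_neg (by rwa [Finset.mem_range] at hm)]
        split_ifs
        · exact (S i).one.2
        · exact (S i).zero.2
    have hrinf : Inf U S H r := by
      intro ε hε
      have hA1 : 0 < (A E + 1) * (n + 1) := by have := hA E; positivity
      have h1 : ∀ᶠ i in (U : Filter ℕ), ∀ m ∈ range n,
          (S i).h (x m i) ≤ ε / ((A E + 1) * (n + 1)) * H i := by
        rw [Filter.eventually_all_finset]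
        exact fun m _ => hx3 m _ (by positivity)
      filter_upwards [h1] with i hi
      have h2 : ∑ m ∈ range n, (S i).h (x m i) ≤ n * (ε / ((A E + 1) * (n + 1)) * H i) := by
        refine (sum_le_sum hi).trans ?_
        rw [sum_const, Finset.card_range, nsmul_eq_mul]
      have h3 := (hroot i).2
      rw [hsum] at h3
      have hAE := hA E
      have hHi := (hH i).le
      calc (S i).h (r i) ≤ A E * ∑ m ∈ range n, (S i).h (x m i) := h3
        _ ≤ A E * (n * (ε / ((A E + 1) * (n + 1)) * H i)) := mul_le_mul_of_nonneg_left h2 hAE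
        _ = (A E / (A E + 1)) * ((n : ℝ) / (n + 1)) * (ε * H i) := by
            have : A E + 1 ≠ 0 := by linarith
            field_simp
        _ ≤ 1 * (ε * H i) := by
            apply mul_le_mul_of_nonneg_right _ (mul_nonneg hε.le hHi)
            have h4 : A E / (A E + 1) ≤ 1 := by rw [div_le_one (by linarith)]; linarith
            have h5 : (n : ℝ) / (n + 1) ≤ 1 := by rw [div_le_one (by positivity)]; linarith
            calc A E / (A E + 1) * ((n : ℝ) / (n + 1)) ≤ 1 * 1 :=
                  mul_le_mul h4 h5 (by positivity) zero_le_one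
              _ = 1 := one_mul 1
        _ = ε * H i := one_mul _
    have hrκ : π r ∈ κ := (hmem _).2 ⟨r, rfl, ⟨B E, fun i => (hroot i).1⟩, hrinf⟩
    refine ⟨⟨π r, hrκ⟩, ?_⟩
    apply Subtype.ext
    have h1 : ((p.eval (⟨π r, hrκ⟩ : κ) : κ) : Λ) = ∑ m ∈ range (n + 1), (p.coeff m : Λ) * π r ^ m := by
      rw [eval_eq_sum_range]
      push_cast
      rfl
    have h2 : π (r ^ n + ∑ j ∈ range n, x j * r ^ j) = 0 := by
      rw [hπ]
      refine Eventually.of_forall fun i => ?_
      have h3 := hr i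
      change (X ^ n + ∑ j ∈ range n, C (x j i) * X ^ j : Polynomial (Ω i)).eval (r i) = 0 at h3
      rw [eval_add, eval_pow, eval_X, eval_finsetSum] at h3
      rw [Pi.add_apply, Pi.pow_apply, Finset.sum_apply, ← h3]
      congr 1
      refine sum_congr rfl fun j _ => ?_
      rw [eval_mul, eval_C, eval_pow, eval_X, Pi.mul_apply, Pi.pow_apply]
    rw [h1, sum_range_succ]
    have h4 : p.coeff n = 1 := hp
    rw [h4]
    rw [map_add, map_pow, map_sum] at h2
    have h5 : ∑ m ∈ range n, (p.coeff m : Λ) * π r ^ m = ∑ m ∈ range n, π (x m * r ^ m) := by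
      refine sum_congr rfl fun m _ => ?_
      rw [map_mul, map_pow, hx1]
    rw [h5]
    change _ + ((1 : κ) : Λ) * π r ^ n = ((0 : κ) : Λ)
    rw [Subfield.coe_one, Subfield.coe_zero, one_mul, add_comm]
    exact h2
  · rintro y ⟨x, hx, hb, -⟩
    exact ⟨x, hx, hb⟩
  · intro x hx
    rw [hmem]
    constructor
    · rintro ⟨y, hy1, hy2, hy3⟩
      exact inf_congr hy3 ((heq y x).1 hy1)
    · intro h
      obtain ⟨y, hy1, hy2⟩ := exists_rep hx
      exact ⟨y, ((heq x y).2 hy2).symm, hy1, inf_congr h hy2⟩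

end Pool.Agent.Q129.OP
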