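import Pool.Agent.Q129.OP.Hev

/-!
# OP-TRI: three points which form an invariant set
-/

set_option autoImplicit false

namespace Pool.Agent.Q129.OP

open Pool.Agent.W277.UH Finset Polynomial
open Pool.Agent.Y706.CH (bK)
open Pool.Agent.Q103.OP

universe u

section
variable {K : Type*} [Field K]

lemma root_family [IsAlgClosed K] (g : Polynomial K) :
    ∃ ζ : Fin g.natDegree → K, ∀ z, g.eval z = g.leadingCoeff * ∏ l, (z - ζ l) := by
  have hs := IsAlgClosed.splits g
  have hcard : g.roots.toList.length = g.natDegree := by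
    rw [Multiset.length_toList]
    exact hs.natDegree_eq_card_roots.symm
  refine ⟨fun i => g.roots.toList[(finCongr hcard.symm i).1], fun z => ?_⟩
  rw [hs.eval_eq_prod_roots z]
  congr 1
  have h1 : ∏ l : Fin g.natDegree, (z - g.roots.toList[(finCongr hcard.symm l).1]) =
      ∏ l : Fin g.roots.toList.length, (z - g.roots.toList[l.1]) :=
    Equiv.prod_comp (finCongr hcard.symm) fun l => (z - g.roots.toList[l.1])
  rw [h1]
  have h2 := Fin.prod_univ_fun_getElem g.roots.toList (fun a => z - a)
  rw [h2, ← Multiset.prod_coe, ← Multiset.map_coe, Multiset.coe_toList]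

/-- factorisation of a form -/
lemma form_factor [IsAlgClosed K] (d : ℕ) (h : Polynomial K) (h0 : h ≠ 0)
    (hd : h.natDegree ≤ d) :
    ∃ (c : K) (η : Fin d → K × K), c ≠ 0 ∧ (∀ l, η l ≠ 0) ∧
      ∀ X, hev d h X = c * ∏ l, wd X (η l) := by
  obtain ⟨ζ, hζ⟩ := root_family h
  obtain ⟨e, he⟩ : ∃ e, d = h.natDegree + e := ⟨d - h.natDegree, by omega⟩
  subst he
  refine ⟨h.leadingCoeff * (-1) ^ e,
    Fin.addCases (fun l => ((ζ l, 1) : K × K)) (fun _ => ((1, 0) : K × K)),
    mul_ne_zero (Polynomial.leadingCoeff_ne_zero.mpr h0) (pow_ne_zero _ (by simp)), ?_, ?_⟩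
  · intro l
    refine Fin.addCases (fun l => ?_) (fun l => ?_) l
    · simp only [Fin.addCases_left]
      intro h
      have := congrArg Prod.snd h
      simp at this
    · simp only [Fin.addCases_right]
      intro h
      have := congrArg Prod.fst h
      simp at this
  · intro X
    rw [Fin.prod_univ_add]
    simp only [Fin.addCases_left, Fin.addCases_right, Finset.prod_const, Finset.card_univ,
      Fintype.card_fin]
    have e1 : wd X ((1, 0) : K × K) = -X.2 := by unfold wd; simp
    have e2 : ∀ l, wd X ((ζ l, 1) : K × K) = X.1 - ζ l * X.2 := by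
      intro l
      unfold wd
      ring
    rw [e1]
    simp_rw [e2]
    by_cases hX : X.2 = 0
    · have hX' : X = (X.1, 0) := Prod.ext rfl hX
      rw [hX', hev_zero]
      simp only [mul_zero, sub_zero, Finset.prod_const, Finset.card_univ, Fintype.card_fin,
        neg_zero]
      rcases Nat.eq_zero_or_pos e with he | he
      · subst he
        simp only [add_zero, pow_zero, mul_one]
        rfl
      · rw [Polynomial.coeff_eq_zero_of_natDegree_lt (by omega), zero_pow (by omega)]
        ring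
    · rw [hev_eval _ _ (by omega) X hX, hζ]
      have e3 : ∏ l, (X.1 / X.2 - ζ l) * X.2 = ∏ l, (X.1 - ζ l * X.2) := by
        apply Finset.prod_congr rfl
        intro l _
        field_simp
      rw [Finset.prod_mul_distrib, Finset.prod_const, Finset.card_univ, Fintype.card_fin] at e3
      rw [← e3, pow_add, neg_pow X.2 e]
      have e4 : ((-1 : K) ^ e) * (-1) ^ e = 1 := by rw [← mul_pow]; simp
      linear_combination
        (-(h.leadingCoeff * (∏ l, (X.1 / X.2 - ζ l)) * X.2 ^ h.natDegree * X.2 ^ e)) * e4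

lemma hev_C_mul (n : ℕ) (c : K) (A : K[X]) (Z : K × K) :
    hev n (C c * A) Z = c * hev n A Z := by
  unfold hev
  rw [Finset.mul_sum]
  refine Finset.sum_congr rfl fun i _ => ?_
  rw [coeff_C_mul]
  ring

lemma hev_X (Z : K × K) : hev 1 (X : K[X]) Z = Z.1 := by
  unfold hev
  simp [coeff_X]

lemma hev_one' (Z : K × K) : hev 1 (1 : K[X]) Z = Z.2 := by
  unfold hev
  simp [coeff_one]

lemma bK_smul (d : ℕ) (p q : K[X]) (t : K) (X : K × K) :
    bK d p q (t • X) = t ^ d • bK d p q X := by
  unfold bK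
  rw [hev_smul, hev_smul]
  rfl

/-- the form whose zeros are the preimages of a point -/
lemma pre_form [IsAlgClosed K] {d : ℕ} (hd : 1 ≤ d) {p q : K[X]} (hpq : Rat d p q)
    (Y : K × K) (hY : Y ≠ 0) :
    ∃ (c : K) (η : Fin d → K × K), c ≠ 0 ∧ (∀ l, η l ≠ 0) ∧
      ∀ X, wd (bK d p q X) Y = c * ∏ l, wd X (η l) := by
  obtain ⟨hpd, hqd⟩ := rat_deg hpq
  have hdeg : (C Y.2 * p - C Y.1 * q).natDegree ≤ d :=
    (natDegree_sub_le _ _).trans (max_le ((natDegree_C_mul_le _ _).trans hpd)
      ((natDegree_C_mul_le _ _).trans hqd))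
  have hne : C Y.2 * p - C Y.1 * q ≠ 0 := by
    intro h0
    have hall : ∀ Z : K × K, Y.2 * hev d p Z - Y.1 * hev d q Z = 0 := by
      intro Z
      rw [← hev_C_mul, ← hev_C_mul, ← hev_sub, h0]
      unfold hev
      simp
    -- a zero of one of the two forms
    by_cases h2 : Y.2 = 0
    · have h1 : Y.1 ≠ 0 := fun h1 => hY (Prod.ext h1 h2)
      have hq0 : q = 0 := by
        rw [h2, C_0, zero_mul, zero_sub, neg_eq_zero] at h0
        exact (mul_eq_zero.mp h0).resolve_left (C_ne_zero.mpr h1)
      exact rat_q_ne hd hpq hq0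
    · have hdvd : q ∣ p := by
        refine ⟨C (Y.1 / Y.2), ?_⟩
        have h3 : C Y.2 * p = C Y.1 * q := sub_eq_zero.mp h0
        have h4 : C Y.2 * (q * C (Y.1 / Y.2)) = C Y.2 * p := by
          rw [h3]
          have h5 : (C Y.2 : K[X]) * C (Y.1 / Y.2) = C Y.1 := by
            rw [← C_mul]
            congr 1
            field_simp
          linear_combination q * h5
        exact (mul_left_cancel₀ (C_ne_zero.mpr h2) h4).symm
      have hu : IsUnit q := hpq.1.symm.isUnit_of_dvd hdvd
      have hq1 : q.natDegree = 0 := natDegree_eq_zero_of_isUnit hu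
      have h3 : C Y.2 * p = C Y.1 * q := sub_eq_zero.mp h0
      have hp1 : p.natDegree = 0 := by
        have h4 : (C Y.2 * p).natDegree = p.natDegree := natDegree_C_mul h2
        have h5 : (C Y.1 * q).natDegree ≤ q.natDegree := natDegree_C_mul_le _ _
        rw [h3] at h4
        omega
      have := hpq.2
      rw [hq1, hp1] at this
      simp at this
      omega
  obtain ⟨c, η, hc, hη, h⟩ := form_factor d _ hne hdeg
  refine ⟨c, η, hc, hη, fun X => ?_⟩
  rw [← h, hev_sub, hev_C_mul, hev_C_mul]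
  unfold wd bK
  ring

/-- the form whose zeros are the fixed points -/
lemma fix_form [IsAlgClosed K] {d : ℕ} (hd : 2 ≤ d) {p q : K[X]} (hpq : Rat d p q) :
    ∃ (c : K) (η : Fin (d + 1) → K × K), c ≠ 0 ∧ (∀ l, η l ≠ 0) ∧
      ∀ X, wd (bK d p q X) X = c * ∏ l, wd X (η l) := by
  obtain ⟨hpd, hqd⟩ := rat_deg hpq
  have hdeg : (p * 1 - q * X).natDegree ≤ d + 1 := by
    refine (natDegree_sub_le _ _).trans (max_le ?_ ?_)
    · rw [mul_one]
      omega
    · exact natDegree_mul_le.trans (by rw [natDegree_X]; omega)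
  have hne : p * 1 - q * X ≠ 0 := by
    intro h0
    rw [mul_one, sub_eq_zero] at h0
    have hu : IsUnit q := hpq.1.symm.isUnit_of_dvd ⟨X, h0⟩
    have hq1 : q.natDegree = 0 := natDegree_eq_zero_of_isUnit hu
    have hp1 : p.natDegree ≤ 1 := by
      rw [h0]
      exact natDegree_mul_le.trans (by rw [natDegree_X, hq1])
    have := hpq.2
    rw [hq1] at this
    simp at this
    omega
  obtain ⟨c, η, hc, hη, h⟩ := form_factor (d + 1) _ hne hdeg
  refine ⟨c, η, hc, hη, fun Z => ?_⟩
  rw [← h, hev_sub, hev_mul d 1 p 1 hpd (by rw [natDegree_one]; omega),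
    hev_mul d 1 q X hqd natDegree_X_le, hev_X, hev_one']
  unfold wd bK
  ring

/-- a form along a line is a polynomial -/
lemma line_poly (d : ℕ) (p : K[X]) (x y : K × K) :
    ∃ P : K[X], ∀ t : K, P.eval t = hev d p (x + t • y) := by
  refine ⟨hev d (p.map C) (C x.1 + X * C y.1, C x.2 + X * C y.2), fun t => ?_⟩
  have h := hev_map (evalRingHom t) d (p.map C) (C x.1 + X * C y.1, C x.2 + X * C y.2)
  rw [coe_evalRingHom] at h
  rw [h, Polynomial.map_map]
  have e1 : (evalRingHom t).comp C = RingHom.id K := by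
    ext a
    simp
  rw [e1, Polynomial.map_id]
  congr 1
  ext
  · simp only [coe_evalRingHom, eval_add, eval_mul, eval_C, eval_X, Prod.fst_add,
      Prod.smul_fst, smul_eq_mul]
  · simp only [coe_evalRingHom, eval_add, eval_mul, eval_C, eval_X, Prod.snd_add,
      Prod.smul_snd, smul_eq_mul]

end

theorem t_TRI : S_TRI.{u} := by
  intro K _ _ _ d hd p q hpq
  have hNV : ∀ X : K × K, X ≠ 0 → bK d p q X ≠ 0 := by
    intro X hX h
    exact hX (rat_nz hpq X (congrArg Prod.fst h) (congrArg Prod.snd h))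
  obtain ⟨c, ξ, hc, hξ, hΦ⟩ := fix_form hd hpq
  by_cases hall : ∀ i j : Fin 3, i ≠ j →
      wd (ξ (Fin.castLE (by omega) i)) (ξ (Fin.castLE (by omega) j)) ≠ 0
  · refine ⟨fun i => ξ (Fin.castLE (by omega) i), fun i => hξ _, hall, Or.inl fun i => ?_⟩
    rw [hΦ]
    rw [Finset.prod_eq_zero (Finset.mem_univ (Fin.castLE (by omega) i)) (wd_self _), mul_zero]
  push Not at hall
  obtain ⟨i', j', hij', hw⟩ := hall
  set i : Fin (d + 1) := Fin.castLE (by omega) i' with hi
  set j : Fin (d + 1) := Fin.castLE (by omega) j' with hj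
  have hij : i ≠ j := by
    intro h
    exact hij' (Fin.castLE_injective (by omega) h)
  set x0 : K × K := ξ i with hx0
  have hx0n : x0 ≠ 0 := hξ i
  have hfix : wd (bK d p q x0) x0 = 0 := by
    rw [hΦ, Finset.prod_eq_zero (Finset.mem_univ i) (wd_self _), mul_zero]
  obtain ⟨s, hs⟩ := (wd_zero_iff hx0n).mp hfix
  obtain ⟨c2, η, hc2, hη, hΨ⟩ := pre_form (by omega) hpq x0 hx0n
  by_cases hex : ∃ l, wd (η l) x0 ≠ 0
  · obtain ⟨l, hl⟩ := hex
    have hy1 : wd (bK d p q (η l)) x0 = 0 := by
      rw [hΨ, Finset.prod_eq_zero (Finset.mem_univ l) (wd_self _), mul_zero]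
    obtain ⟨s', hs'⟩ := (wd_zero_iff hx0n).mp hy1
    obtain ⟨c3, θ, hc3, hθ, hΘ⟩ := pre_form (by omega) hpq (η l) (hη l)
    set z : K × K := θ ⟨0, by omega⟩ with hz
    have hz1 : wd (bK d p q z) (η l) = 0 := by
      rw [hΘ, Finset.prod_eq_zero (Finset.mem_univ (⟨0, by omega⟩ : Fin d)) (wd_self _), mul_zero]
    have hzn : z ≠ 0 := hθ _
    have hs0 : s ≠ 0 := by
      rintro rfl
      rw [zero_smul] at hs
      exact hNV x0 hx0n hs
    have hs0' : s' ≠ 0 := by
      rintro rfl
      rw [zero_smul] at hs'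
      exact hNV _ (hη l) hs'
    have hzx : wd z x0 ≠ 0 := by
      intro h
      obtain ⟨t, ht⟩ := (wd_zero_iff hx0n).mp h
      have ht0 : t ≠ 0 := by
        rintro rfl
        rw [zero_smul] at ht
        exact hzn ht
      rw [ht, bK_smul, hs, wd_smul_left, wd_smul_left] at hz1
      rcases mul_eq_zero.mp hz1 with h1 | h1
      · exact pow_ne_zero _ ht0 h1
      · rcases mul_eq_zero.mp h1 with h2 | h2
        · exact hs0 h2
        · rw [wd_comm, neg_eq_zero] at h2
          exact hl h2
    have hzy : wd z (η l) ≠ 0 := by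
      intro h
      obtain ⟨t, ht⟩ := (wd_zero_iff (hη l)).mp h
      have ht0 : t ≠ 0 := by
        rintro rfl
        rw [zero_smul] at ht
        exact hzn ht
      rw [ht, bK_smul, hs', wd_smul_left, wd_smul_left] at hz1
      rcases mul_eq_zero.mp hz1 with h1 | h1
      · exact pow_ne_zero _ ht0 h1
      · rcases mul_eq_zero.mp h1 with h2 | h2
        · exact hs0' h2
        · rw [wd_comm, neg_eq_zero] at h2
          exact hl h2
    have hl' : wd x0 (η l) ≠ 0 := by
      rw [wd_comm]
      exact neg_ne_zero.mpr hl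
    have hzx' : wd x0 z ≠ 0 := by
      rw [wd_comm]
      exact neg_ne_zero.mpr hzx
    have hzy' : wd (η l) z ≠ 0 := by
      rw [wd_comm]
      exact neg_ne_zero.mpr hzy
    refine ⟨![x0, η l, z], ?_, ?_, Or.inr ⟨hfix, hy1, hz1⟩⟩
    · intro k
      fin_cases k
      · exact hx0n
      · exact hη l
      · exact hzn
    · intro a b hab
      fin_cases a <;> fin_cases b
      · exact absurd rfl hab
      · exact hl'
      · exact hzx'
      · exact hl
      · exact absurd rfl hab
      · exact hzy'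
      · exact hzx
      · exact hzy
      · exact absurd rfl hab
  · exfalso
    push Not at hex
    -- a vector which is not proportional to x0
    obtain ⟨y, hy⟩ : ∃ y : K × K, wd x0 y ≠ 0 := by
      by_cases h1 : x0.1 = 0
      · refine ⟨((1, 0) : K × K), ?_⟩
        unfold wd
        simp only [mul_zero, mul_one, zero_sub]
        intro h2
        exact hx0n (Prod.ext h1 (neg_eq_zero.mp h2))
      · refine ⟨((0, 1) : K × K), ?_⟩
        unfold wd
        simpa using h1
    obtain ⟨Pp, hPp⟩ := line_poly d p x0 y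
    obtain ⟨Pq, hPq⟩ := line_poly d q x0 y
    set A : K[X] := C c * ∏ l, (C (wd x0 (ξ l)) + X * C (wd y (ξ l))) with hA
    set B : K[X] := C c2 * ∏ l, (C (wd x0 (η l)) + X * C (wd y (η l))) with hB
    have hAe : ∀ t, A.eval t = wd (bK d p q (x0 + t • y)) (x0 + t • y) := by
      intro t
      rw [hΦ, hA, eval_mul, eval_C, eval_prod]
      congr 1
      refine Finset.prod_congr rfl fun l _ => ?_
      rw [wd_add_left, wd_smul_left, eval_add, eval_mul, eval_C, eval_C, eval_X]
    have hBe : ∀ t, B.eval t = wd (bK d p q (x0 + t • y)) x0 := by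
      intro t
      rw [hΨ, hB, eval_mul, eval_C, eval_prod]
      congr 1
      refine Finset.prod_congr rfl fun l _ => ?_
      rw [wd_add_left, wd_smul_left, eval_add, eval_mul, eval_C, eval_C, eval_X]
    have hA2 : (X : K[X]) ^ 2 ∣ A := by
      refine Dvd.dvd.mul_left ?_ _
      have h1 : (∏ l ∈ ({i, j} : Finset (Fin (d + 1))), (C (wd x0 (ξ l)) + X * C (wd y (ξ l)))) ∣
          ∏ l, (C (wd x0 (ξ l)) + X * C (wd y (ξ l))) :=
        Finset.prod_dvd_prod_of_subset _ _ _ (Finset.subset_univ _)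
      refine dvd_trans ?_ h1
      rw [Finset.prod_pair hij]
      have h2 : wd x0 (ξ i) = 0 := wd_self _
      have h3 : wd x0 (ξ j) = 0 := hw
      rw [h2, h3, C_0, zero_add, zero_add]
      exact ⟨C (wd y (ξ i)) * C (wd y (ξ j)), by ring⟩
    have hB2 : (X : K[X]) ^ 2 ∣ B := by
      refine Dvd.dvd.mul_left ?_ _
      have h1 : (∏ _l : Fin d, (X : K[X])) ∣ ∏ l, (C (wd x0 (η l)) + X * C (wd y (η l))) := by
        refine Finset.prod_dvd_prod_of_dvd _ _ fun l _ => ?_
        have h2 : wd x0 (η l) = 0 := by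
          rw [wd_comm, hex l, neg_zero]
        rw [h2, C_0, zero_add]
        exact ⟨_, rfl⟩
      rw [Finset.prod_const, Finset.card_univ, Fintype.card_fin] at h1
      exact dvd_trans (pow_dvd_pow _ hd) h1
    set P : K[X] := Pp * C y.2 - Pq * C y.1 with hP
    have hPe : ∀ t, P.eval t = wd (bK d p q (x0 + t • y)) y := by
      intro t
      rw [hP, eval_sub, eval_mul, eval_mul, eval_C, eval_C, hPp, hPq]
      rfl
    have hid : X * P = A - B := by
      apply Polynomial.funext
      intro t
      rw [eval_mul, eval_X, hPe, eval_sub, hAe, hBe]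
      unfold wd
      simp only [Prod.fst_add, Prod.snd_add, Prod.smul_fst, Prod.smul_snd, smul_eq_mul]
      ring
    obtain ⟨R, hR⟩ : (X : K[X]) ^ 2 ∣ X * P := by
      rw [hid]
      exact dvd_sub hA2 hB2
    have hPR : P = X * R := by
      have h1 : (X : K[X]) * P = X * (X * R) := by
        rw [hR]
        ring
      exact mul_left_cancel₀ X_ne_zero h1
    have hP0 : wd (bK d p q x0) y = 0 := by
      have h1 := hPe 0
      rw [zero_smul, add_zero] at h1
      rw [← h1, hPR, eval_mul, eval_X, zero_mul]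
    have h3 := wd_three x0 y (bK d p q x0)
    rw [wd_comm x0 (bK d p q x0), hfix, wd_comm y (bK d p q x0), hP0, neg_zero, zero_smul,
      zero_smul, sub_zero] at h3
    exact (smul_ne_zero hy (hNV x0 hx0n)) h3

end Pool.Agent.Q129.OP
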