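import Pool.Agent.Q103.OP.Defs

/-!
# OP-ULT: ultraproducts of algebraically closed fields
-/

set_option autoImplicit false

namespace Pool.Agent.Q129.OP

open Pool.Agent.Q103.OP Polynomial Filter

universe u

section

variable {Ω : ℕ → Type u} [∀ i, Field (Ω i)] (U : Ultrafilter ℕ)

/-- the ideal of the families which vanish almost everywhere -/
def uI : Ideal (∀ i, Ω i) where
  carrier := {x | ∀ᶠ i in (U : Filter ℕ), x i = 0}
  add_mem' := fun {x y} hx hy => by
    filter_upwards [hx, hy] with i h1 h2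
    rw [Pi.add_apply, h1, h2, add_zero]
  zero_mem' := Eventually.of_forall fun i => rfl
  smul_mem' := fun c x hx => by
    filter_upwards [hx] with i h1
    rw [smul_eq_mul, Pi.mul_apply, h1, mul_zero]

theorem mem_uI (x : ∀ i, Ω i) : x ∈ uI U ↔ ∀ᶠ i in (U : Filter ℕ), x i = 0 := Iff.rfl

theorem uI_max : (uI U : Ideal (∀ i, Ω i)).IsMaximal := by
  rw [Ideal.isMaximal_iff]
  refine ⟨?_, ?_⟩
  · rw [mem_uI]
    intro h
    obtain ⟨i, hi⟩ := h.exists
    exact one_ne_zero hi
  · intro J x hJ hx hxJ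
    rw [mem_uI, ← Ultrafilter.eventually_not] at hx
    have h1 : (1 : ∀ i, Ω i) = (1 - x * fun i => (x i)⁻¹) + x * fun i => (x i)⁻¹ := by ring
    rw [h1]
    refine J.add_mem (hJ ?_) (J.mul_mem_right _ hxJ)
    rw [mem_uI]
    filter_upwards [hx] with i hi
    rw [Pi.sub_apply, Pi.mul_apply, Pi.one_apply, mul_inv_cancel₀ hi, sub_self]

/-- roots over the product -/
theorem prod_root [∀ i, IsAlgClosed (Ω i)] (P : Polynomial (∀ i, Ω i)) (hP : P.Monic)
    (hd : P.natDegree ≠ 0) : ∃ r, P.eval r = 0 := by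
  have h1 : ∀ i, ∃ r : Ω i, (P.map (Pi.evalRingHom Ω i)).eval r = 0 := by
    intro i
    have h2 : (P.map (Pi.evalRingHom Ω i)).Monic := hP.map _
    have h3 : (P.map (Pi.evalRingHom Ω i)).natDegree = P.natDegree := hP.natDegree_map _
    obtain ⟨r, hr⟩ := IsAlgClosed.exists_root (P.map (Pi.evalRingHom Ω i)) (by
      rw [Polynomial.degree_eq_natDegree h2.ne_zero, h3]
      exact_mod_cast hd)
    exact ⟨r, hr⟩
  choose r hr using h1
  refine ⟨r, ?_⟩
  funext i
  have h2 := hr i
  rw [eval_map] at h2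
  have h3 := Polynomial.hom_eval₂ P (RingHom.id _) (Pi.evalRingHom Ω i) r
  rw [RingHom.comp_id] at h3
  change Pi.evalRingHom Ω i (P.eval r) = 0
  rw [← h2]
  exact h3

end

theorem t_ULT : S_ULT.{u} := by
  intro Ω _ _ _ U
  have hmax := uI_max (Ω := Ω) U
  let Λ := (∀ i, Ω i) ⧸ (uI U : Ideal (∀ i, Ω i))
  let hF : Field Λ := Ideal.Quotient.field _
  let π : (∀ i, Ω i) →+* Λ := Ideal.Quotient.mk _
  have hπ : ∀ x, π x = 0 ↔ ∀ᶠ i in (U : Filter ℕ), x i = 0 := fun x =>
    Ideal.Quotient.eq_zero_iff_mem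
  have hsurj : Function.Surjective π := Ideal.Quotient.mk_surjective
  have hchar : CharZero Λ := by
    refine charZero_of_inj_zero fun n hn => ?_
    have h1 : π (n : ∀ i, Ω i) = 0 := by
      rw [map_natCast]
      exact hn
    rw [hπ] at h1
    obtain ⟨i, hi⟩ := h1.exists
    have h2 : ((n : Ω i)) = 0 := hi
    exact_mod_cast h2
  have hac : IsAlgClosed Λ := by
    refine IsAlgClosed.of_exists_root Λ fun p hp hirr => ?_
    have hl : p ∈ Polynomial.lifts π := by
      rw [Polynomial.mem_lifts]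
      exact Polynomial.map_surjective π hsurj p
    obtain ⟨P, hP1, hP2, hP3⟩ := Polynomial.lifts_and_natDegree_eq_and_monic hl hp
    obtain ⟨r, hr⟩ := prod_root P hP3 (by rw [hP2]; exact hirr.natDegree_pos.ne')
    refine ⟨π r, ?_⟩
    rw [← hP1, eval_map]
    have h3 := Polynomial.hom_eval₂ P (RingHom.id _) π r
    rw [RingHom.comp_id] at h3
    rw [← h3]
    change π (P.eval r) = 0
    rw [hr, map_zero]
  exact ⟨Λ, hF, hchar, hac, π, hsurj, hπ⟩

end Pool.Agent.Q129.OP
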