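import Pool.Agent.Q103.OP.Defs

/-!
# Forms of two variables: products, compositions and the chain rule for the Wronskian
-/

set_option autoImplicit false

namespace Pool.Agent.Q129.OP

open Pool.Agent.W277.UH Finset Polynomial
open Pool.Agent.Y706.CH (bK)
open Pool.Agent.Q103.OP (Wr Jv Rat)

section
variable {K : Type*} [Field K]

lemma hev_map {R S : Type*} [CommSemiring R] [CommSemiring S] (f : R →+* S) (d : ℕ)
    (p : Polynomial R) (X : R × R) :
    f (hev d p X) = hev d (p.map f) (f X.1, f X.2) := by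
  unfold hev
  rw [map_sum]
  refine Finset.sum_congr rfl fun i _ => ?_
  rw [map_mul, map_mul, map_pow, map_pow, coeff_map]

lemma hev_mul (n m : ℕ) (A B : K[X]) (hA : A.natDegree ≤ n) (hB : B.natDegree ≤ m) (Z : K × K) :
    hev (n + m) (A * B) Z = hev n A Z * hev m B Z := by
  by_cases h : Z.2 = 0
  · have hZ : Z = (Z.1, 0) := Prod.ext rfl h
    rw [hZ, hev_zero, hev_zero, hev_zero, coeff_mul_add_eq_of_natDegree_le hA hB, pow_add]
    ring
  · rw [hev_eval _ _ (natDegree_mul_le.trans (add_le_add hA hB)) _ h, hev_eval _ _ hA _ h,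
      hev_eval _ _ hB _ h, eval_mul, pow_add]
    ring

lemma hev_sub (n : ℕ) (A B : K[X]) (Z : K × K) :
    hev n (A - B) Z = hev n A Z - hev n B Z := by
  unfold hev
  rw [← Finset.sum_sub_distrib]
  refine Finset.sum_congr rfl fun i _ => ?_
  rw [coeff_sub]
  ring

lemma hev_comp (e d : ℕ) (A p q : K[X]) (hp : p.natDegree ≤ d) (hq : q.natDegree ≤ d)
    (Z : K × K) :
    hev (e * d) (hc e A p q) Z = hev e A (hev d p Z, hev d q Z) := by
  by_cases h : Z.2 = 0
  · have hZ : Z = (Z.1, 0) := Prod.ext rfl h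
    rw [hZ, hev_zero, hev_zero, hev_zero, hc_coeff e d A p q hp hq]
    have e1 : (p.coeff d * Z.1 ^ d, q.coeff d * Z.1 ^ d) =
        (Z.1 ^ d) • ((p.coeff d, q.coeff d) : K × K) := by
      ext
      · simp only [Prod.smul_fst, smul_eq_mul]
        ring
      · simp only [Prod.smul_snd, smul_eq_mul]
        ring
    rw [e1, hev_smul, ← pow_mul, mul_comm d e]
    ring
  · rw [hev_eval _ _ (hc_degree e d A p q hp hq) _ h, hev_eval _ _ hp _ h, hev_eval _ _ hq _ h,
      hc_eval]
    have e1 : (Z.2 ^ d * p.eval (Z.1 / Z.2), Z.2 ^ d * q.eval (Z.1 / Z.2)) =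
        (Z.2 ^ d) • ((p.eval (Z.1 / Z.2), q.eval (Z.1 / Z.2)) : K × K) := by
      ext
      · simp only [Prod.smul_fst, smul_eq_mul]
      · simp only [Prod.smul_snd, smul_eq_mul]
    rw [e1, hev_smul, ← pow_mul, mul_comm d e]

/-- products of compositions -/
lemma hc_mul (n m : ℕ) (A B p q : K[X]) (hA : A.natDegree ≤ n) (hB : B.natDegree ≤ m) :
    hc (n + m) (A * B) p q = hc n A p q * hc m B p q := by
  have hinj : Function.Injective (algebraMap K[X] (FractionRing K[X])) :=
    IsFractionRing.injective _ _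
  apply hinj
  unfold hc
  rw [map_mul, hev_map, hev_map, hev_map, Polynomial.map_mul, Polynomial.map_mul]
  exact hev_mul n m _ _ (natDegree_map_le.trans (natDegree_map_le.trans hA))
    (natDegree_map_le.trans (natDegree_map_le.trans hB)) _

lemma hc_sub (n : ℕ) (A B p q : K[X]) :
    hc n (A - B) p q = hc n A p q - hc n B p q := by
  unfold hc hev
  rw [← Finset.sum_sub_distrib]
  refine Finset.sum_congr rfl fun i _ => ?_
  rw [coeff_map, coeff_map, coeff_map, coeff_sub, C_sub]
  ring

lemma hc_succ (n : ℕ) (A p q : K[X]) (hA : A.natDegree ≤ n) :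
    hc (n + 1) A p q = q * hc n A p q := by
  unfold hc hev
  rw [Finset.sum_range_succ, coeff_map, coeff_eq_zero_of_natDegree_lt (Nat.lt_succ_of_le hA),
    Finset.mul_sum, C_0, zero_mul, zero_mul, add_zero]
  refine Finset.sum_congr rfl fun i hi => ?_
  rw [Finset.mem_range] at hi
  have e1 : n + 1 - i = (n - i) + 1 := by omega
  rw [e1, pow_succ]
  simp only
  ring

/-- the derivative of a composition -/
lemma hc_deriv (n : ℕ) (A p q : K[X]) :
    q * derivative (hc (n + 1) A p q) =
      ((n : K[X]) + 1) * derivative q * hc (n + 1) A p q +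
        Wr p q * hc n (derivative A) p q := by
  unfold hc hev
  simp only [coeff_map, coeff_derivative]
  rw [derivative_sum, Finset.mul_sum, Finset.mul_sum, Finset.mul_sum]
  rw [Finset.sum_range_succ' (fun i => q * derivative (C (A.coeff i) * p ^ i * q ^ (n + 1 - i))),
    Finset.sum_range_succ' (fun i => ((n : K[X]) + 1) * derivative q *
      (C (A.coeff i) * p ^ i * q ^ (n + 1 - i))), add_right_comm, ← Finset.sum_add_distrib]
  congr 1
  · refine Finset.sum_congr rfl fun i hi => ?_
    rw [Finset.mem_range] at hi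
    obtain ⟨k, rfl⟩ : ∃ k, n = i + k := ⟨n - i, by omega⟩
    have e1 : i + k + 1 - (i + 1) = k := by omega
    have e2 : i + k - i = k := by omega
    rw [e1, e2, derivative_mul, derivative_mul, derivative_C, zero_mul, zero_add,
      derivative_pow_succ]
    rcases k with _ | k
    · unfold Wr
      simp only [pow_zero, derivative_one, mul_zero, add_zero, mul_one, Nat.cast_add, Nat.cast_zero,
        C_mul, C_add, C_1, map_natCast]
      ring
    · rw [derivative_pow_succ]
      unfold Wr
      simp only [Nat.cast_add, Nat.cast_one, C_mul, C_add, C_1, map_natCast]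
      ring
  · rw [pow_zero, mul_one, Nat.sub_zero, derivative_mul, derivative_C, zero_mul, zero_add,
      derivative_pow_succ]
    simp only [C_add, C_1, map_natCast]
    ring

lemma wr_degree (d : ℕ) (hd : 1 ≤ d) (p q : K[X]) (hp : p.natDegree ≤ d) (hq : q.natDegree ≤ d) :
    (Wr p q).natDegree ≤ 2 * d - 2 := by
  rw [natDegree_le_iff_coeff_eq_zero]
  intro N hN
  have hp' : (derivative p).natDegree ≤ d - 1 :=
    (natDegree_derivative_le p).trans (by omega)
  have hq' : (derivative q).natDegree ≤ d - 1 :=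
    (natDegree_derivative_le q).trans (by omega)
  obtain ⟨c, rfl⟩ : ∃ c, d = c + 1 := ⟨d - 1, by omega⟩
  rw [Nat.add_sub_cancel] at hp' hq'
  unfold Wr
  rw [coeff_sub]
  by_cases hN2 : N = c + (c + 1)
  · subst hN2
    rw [coeff_mul_add_eq_of_natDegree_le hp' hq]
    rw [add_comm c (c + 1), coeff_mul_add_eq_of_natDegree_le hp hq', coeff_derivative,
      coeff_derivative]
    ring
  · have h1 : (derivative p * q).natDegree < N :=
      lt_of_le_of_lt (natDegree_mul_le.trans (add_le_add hp' hq)) (by omega)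
    have h2 : (p * derivative q).natDegree < N :=
      lt_of_le_of_lt (natDegree_mul_le.trans (add_le_add hp hq')) (by omega)
    rw [coeff_eq_zero_of_natDegree_lt h1, coeff_eq_zero_of_natDegree_lt h2, sub_zero]

/-- the chain rule for the Wronskian -/
lemma wr_hc (e : ℕ) (he : 1 ≤ e) (A B p q : K[X]) (hA : A.natDegree ≤ e) (hB : B.natDegree ≤ e)
    (hq : q ≠ 0) :
    Wr (hc e A p q) (hc e B p q) = Wr p q * hc (2 * e - 2) (Wr A B) p q := by
  obtain ⟨n, rfl⟩ : ∃ n, e = n + 1 := ⟨e - 1, by omega⟩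
  have hA' : (derivative A).natDegree ≤ n :=
    (natDegree_derivative_le A).trans (by omega)
  have hB' : (derivative B).natDegree ≤ n :=
    (natDegree_derivative_le B).trans (by omega)
  have h1 := hc_deriv n A p q
  have h2 := hc_deriv n B p q
  have h3 : hc n (derivative A) p q * hc (n + 1) B p q -
      hc (n + 1) A p q * hc n (derivative B) p q = q * hc (2 * n) (Wr A B) p q := by
    rw [← hc_mul n (n + 1) _ _ p q hA' hB, ← hc_mul (n + 1) n _ _ p q hA hB']
    have e1 : n + 1 + n = n + (n + 1) := by ring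
    rw [e1, ← hc_sub]
    have e2 : n + (n + 1) = 2 * n + 1 := by ring
    rw [e2]
    have h4 := wr_degree (n + 1) (by omega) A B hA hB
    exact hc_succ (2 * n) (Wr A B) p q (h4.trans (by omega))
  have h5 : q * Wr (hc (n + 1) A p q) (hc (n + 1) B p q) =
      q * (Wr p q * hc (2 * n) (Wr A B) p q) := by
    have e3 : Wr (hc (n + 1) A p q) (hc (n + 1) B p q) =
        derivative (hc (n + 1) A p q) * hc (n + 1) B p q -
          hc (n + 1) A p q * derivative (hc (n + 1) B p q) := rfl
    rw [e3]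
    linear_combination (hc (n + 1) B p q) * h1 - (hc (n + 1) A p q) * h2 + (Wr p q) * h3
  have h6 := mul_left_cancel₀ hq h5
  rw [h6]
  congr 2

lemma rat_deg {d : ℕ} {p q : K[X]} (h : Rat d p q) : p.natDegree ≤ d ∧ q.natDegree ≤ d :=
  ⟨(le_max_left _ _).trans h.2.le, (le_max_right _ _).trans h.2.le⟩

/-- no common zeros -/
lemma rat_nz {d : ℕ} {p q : K[X]} (h : Rat d p q) (X : K × K) (h1 : hev d p X = 0)
    (h2 : hev d q X = 0) : X = 0 := by
  obtain ⟨hpd, hqd⟩ := rat_deg h
  obtain ⟨hco, hmax⟩ := h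
  by_contra hX
  by_cases h3 : X.2 = 0
  · have hX1 : X.1 ≠ 0 := fun h4 => hX (Prod.ext h4 h3)
    have hX' : X = (X.1, 0) := Prod.ext rfl h3
    rw [hX', hev_zero] at h1 h2
    have c1 := (mul_eq_zero.mp h1).resolve_right (pow_ne_zero _ hX1)
    have c2 := (mul_eq_zero.mp h2).resolve_right (pow_ne_zero _ hX1)
    have key : p = 0 ∧ q = 0 := by
      rcases max_choice p.natDegree q.natDegree with h5 | h5
      · rw [h5] at hmax
        rw [← hmax] at c1
        have hp0 : p = 0 := leadingCoeff_eq_zero.mp c1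
        rw [hp0, natDegree_zero] at hmax
        rw [← hmax] at hqd c2
        rw [eq_C_of_natDegree_le_zero hqd, c2, C_0]
        exact ⟨hp0, rfl⟩
      · rw [h5] at hmax
        rw [← hmax] at c2
        have hq0 : q = 0 := leadingCoeff_eq_zero.mp c2
        rw [hq0, natDegree_zero] at hmax
        rw [← hmax] at hpd c1
        rw [eq_C_of_natDegree_le_zero hpd, c1, C_0]
        exact ⟨rfl, hq0⟩
    rw [key.1, key.2] at hco
    exact not_isCoprime_zero_zero hco
  · rw [hev_eval _ _ hpd _ h3] at h1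
    rw [hev_eval _ _ hqd _ h3] at h2
    have c1 := (mul_eq_zero.mp h1).resolve_left (pow_ne_zero _ h3)
    have c2 := (mul_eq_zero.mp h2).resolve_left (pow_ne_zero _ h3)
    obtain ⟨u, w, huw⟩ := hco
    have := congrArg (Polynomial.eval (X.1 / X.2)) huw
    rw [eval_add, eval_mul, eval_mul, c1, c2, mul_zero, mul_zero, add_zero, eval_one] at this
    exact zero_ne_one this

lemma rat_map {L : Type*} [Field L] (φ : K →+* L) {d : ℕ} {p q : K[X]} (h : Rat d p q) :
    Rat d (p.map φ) (q.map φ) := by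
  refine ⟨h.1.map (mapRingHom φ), ?_⟩
  rw [natDegree_map, natDegree_map]
  exact h.2

lemma rat_coeff {d : ℕ} {p q : K[X]} (h : Rat d p q) :
    ((p.coeff d, q.coeff d) : K × K) ≠ 0 := by
  intro h0
  have h1 : hev d p ((1 : K), (0 : K)) = 0 := by
    rw [hev_zero]
    have := congrArg Prod.fst h0
    simp only [Prod.fst_zero] at this
    rw [this, zero_mul]
  have h2 : hev d q ((1 : K), (0 : K)) = 0 := by
    rw [hev_zero]
    have := congrArg Prod.snd h0
    simp only [Prod.snd_zero] at this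
    rw [this, zero_mul]
  have := rat_nz h _ h1 h2
  have h3 := congrArg Prod.fst this
  simp at h3

lemma rat_comp {e d : ℕ} {P Q p q : K[X]} (h : Rat e P Q) (h' : Rat d p q) :
    Rat (e * d) (hc e P p q) (hc e Q p q) := by
  obtain ⟨hpd, hqd⟩ := rat_deg h'
  constructor
  · refine (isCoprime_iff_aeval_ne_zero_of_isAlgClosed (k := K) (AlgebraicClosure K) _ _).mpr ?_
    intro x
    by_contra hcon
    push Not at hcon
    obtain ⟨h1, h2⟩ := hcon
    rw [hc_aeval] at h1 h2
    have h3 := rat_nz (rat_map (algebraMap K (AlgebraicClosure K)) h) _ h1 h2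
    have h4 : aeval x p = 0 := congrArg Prod.fst h3
    have h5 : aeval x q = 0 := congrArg Prod.snd h3
    obtain ⟨u, w, huw⟩ := h'.1
    have := congrArg (aeval x) huw
    rw [map_add, map_mul, map_mul, h4, h5, mul_zero, mul_zero, add_zero, map_one] at this
    exact zero_ne_one this
  · apply le_antisymm
    · exact max_le (hc_degree e d P p q hpd hqd) (hc_degree e d Q p q hpd hqd)
    · by_contra hlt
      push Not at hlt
      have l1 : (hc e P p q).natDegree < e * d := (le_max_left _ _).trans_lt hlt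
      have l2 : (hc e Q p q).natDegree < e * d := (le_max_right _ _).trans_lt hlt
      have c1 := coeff_eq_zero_of_natDegree_lt l1
      have c2 := coeff_eq_zero_of_natDegree_lt l2
      rw [hc_coeff e d _ p q hpd hqd] at c1 c2
      exact rat_coeff h' (rat_nz h _ c1 c2)

lemma rat_q_ne {d : ℕ} (hd : 1 ≤ d) {p q : K[X]} (h : Rat d p q) : q ≠ 0 := by
  rintro rfl
  obtain ⟨hco, hmax⟩ := h
  rw [isCoprime_zero_right] at hco
  rw [natDegree_eq_zero_of_isUnit hco, natDegree_zero] at hmax
  simp at hmax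
  omega

lemma jv_comp {e d : ℕ} (he : 1 ≤ e) (hd : 1 ≤ d) {P Q p q : K[X]} (h : Rat e P Q)
    (h' : Rat d p q) (Z : K × K) :
    Jv (e * d) (hc e P p q) (hc e Q p q) Z = Jv e P Q (bK d p q Z) * Jv d p q Z := by
  obtain ⟨hPe, hQe⟩ := rat_deg h
  obtain ⟨hpd, hqd⟩ := rat_deg h'
  unfold Jv
  rw [wr_hc e he P Q p q hPe hQe (rat_q_ne hd h')]
  have e1 : 2 * (e * d) - 2 = (2 * d - 2) + (2 * e - 2) * d := by
    obtain ⟨a, rfl⟩ : ∃ a, e = a + 1 := ⟨e - 1, by omega⟩
    obtain ⟨b, rfl⟩ : ∃ b, d = b + 1 := ⟨d - 1, by omega⟩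
    have i1 : 2 * ((a + 1) * (b + 1)) - 2 = 2 * a * b + 2 * a + 2 * b := by
      have : 2 * ((a + 1) * (b + 1)) = 2 * a * b + 2 * a + 2 * b + 2 := by ring
      omega
    have i2 : 2 * (b + 1) - 2 = 2 * b := by omega
    have i3 : 2 * (a + 1) - 2 = 2 * a := by omega
    rw [i1, i2, i3]
    ring
  rw [e1, hev_mul _ _ _ _ (wr_degree d hd p q hpd hqd) (hc_degree _ d _ p q hpd hqd),
    hev_comp (2 * e - 2) d _ p q hpd hqd, mul_comm]
  rfl

end

end Pool.Agent.Q129.OP
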